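import Pool.Agent.KS6_95.HM.Curve4
import Pool.Graph.R_seed8.Chud.PB

/-!
# Irreducible plane curves with h-constants tending to `-3` (problem MP_81ecef_ag, Q1)

There are irreducible singular plane curves whose h-constants come arbitrarily close to `-3`.

Let `w`, `w'` be the primitive cube roots of unity, let `a ≥ 3` be a multiple of `3`, and put
`F_w = t ^ (a + 2) + w t ^ (2 a + 1) + w'` and `G_w = t ^ (2 a + 2) + w t ^ a + w' t`.  The curve is
the closure of the image of `t ↦ (F_w G_w' : F_w' G_w : G_w G_w')`; its affine coordinates are the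
quotients of the Lagrange resolvents of `(x₁, x₂, x₃)` and `(x₁ x₂, x₂ x₃, x₃ x₁)`, where
`(x₁, x₂, x₃) = (t, t ^ a, 1 / t ^ (a + 1))`; so the curve is birationally the image of a one-parameter
subgroup of the torus `x₁ x₂ x₃ = 1` in the quotient by the cyclic permutations.  It is an irreducible
curve of degree at most `4 a + 4`.  The points `(1 : 0 : 0)`, `(0 : 1 : 0)` have multiplicity at least
`2 a`, the six points `(-z : -z : 1)`, `(-z w : -z w' : 1)` with `z³ = 1` have multiplicity at least `a`,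
and the parameters `t ≠ 1` with `t ^ (a² + a + 1) = 1` give `a (a + 1) / 3` points of multiplicity at
least `3`.
-/

set_option autoImplicit false

open MvPolynomial

namespace Pool.Agent.Results.MP_81ecef_ag.MinusThree

/-- the projective plane over the complex numbers: the lines through the origin of `ℂ ^ 3` -/
abbrev Plane : Type := Projectivization ℂ (Fin 3 → ℂ)

/-- the multiplicity of the plane curve `F = 0` at the point `p`: the largest `m` such that the form
`F` vanishes to order at least `m` at a representative `v` of `p` in `ℂ ^ 3`, i.e. belongs to the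
`m`-th power of the ideal of all polynomials which vanish at `v` -/
noncomputable def mult (F : MvPolynomial (Fin 3) ℂ) (p : Plane) : ℕ :=
  sSup {m : ℕ | F ∈ RingHom.ker (MvPolynomial.eval p.rep) ^ m}

/-- the set of the singular points of the curve `F = 0`: the points of multiplicity at least `2` -/
def Sing (F : MvPolynomial (Fin 3) ℂ) : Set Plane := {p | 2 ≤ mult F p}

/-- `F = 0` is an irreducible curve of degree `d` with at least one singular point -/
structure IsIrreducibleSingularCurve (F : MvPolynomial (Fin 3) ℂ) (d : ℕ) : Prop where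
  homogeneous : F.IsHomogeneous d
  irreducible : Irreducible F
  finite : (Sing F).Finite
  nonempty : (Sing F).Nonempty

/-- the h-constant of the curve `F = 0` of degree `d` -/
noncomputable def h (F : MvPolynomial (Fin 3) ℂ) (d : ℕ) : ℝ :=
  ((d : ℝ) ^ 2 - ∑ᶠ p ∈ Sing F, (mult F p : ℝ) ^ 2) / (Sing F).ncard

open Pool.Agent.Chud Pool.Agent.KS6_95.HM
open Pool.Agent.Q79.HC (finite_common exists_form degree_le)

theorem mult_eq {F : MvPolynomial (Fin 3) ℂ} (hF : F ≠ 0) (p : Plane) : mult F p = mu p.rep F := by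
  have h1 : {m : ℕ | F ∈ RingHom.ker (MvPolynomial.eval p.rep) ^ m} = Set.Iic (mu p.rep F) := by
    ext m
    exact mem_mI_pow_iff p.rep hF m
  rw [mult, h1]
  exact csSup_Iic

theorem le_mult {F : MvPolynomial (Fin 3) ℂ} (hF : F ≠ 0) (p : Plane) (m : ℕ) :
    m ≤ mult F p ↔ F ∈ mI p.rep ^ m := by
  rw [mult_eq hF, mem_mI_pow_iff p.rep hF]

theorem sing_finite {F : MvPolynomial (Fin 3) ℂ} {d : ℕ} (hF : F.IsHomogeneous d)
    (hFi : Irreducible F) : (Sing F).Finite := by
  obtain ⟨i, hi⟩ := exists_pderiv_ne_zero hFi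
  have hnd : ¬ F ∣ pderiv i F := by
    rintro ⟨K, hK⟩
    have hK0 : K ≠ 0 := by
      rintro rfl
      exact hi (by rw [hK, mul_zero])
    have h1 : (pderiv i F).totalDegree = d - 1 := (hF.pderiv).totalDegree hi
    rw [hK, totalDegree_mul_of_isDomain hFi.ne_zero hK0, hF.totalDegree hFi.ne_zero] at h1
    have hd : d = 0 := by omega
    have h2 : F.totalDegree = 0 := by rw [hF.totalDegree hFi.ne_zero, hd]
    rw [totalDegree_eq_zero_iff_eq_C] at h2
    rw [h2, pderiv_C] at hi
    exact hi rfl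
  have hrel : IsRelPrime F (pderiv i F) := (hFi.isRelPrime_iff_not_dvd).2 hnd
  refine (finite_common hF (hF.pderiv (i := i)) hFi.ne_zero hi hrel).subset ?_
  intro p hp
  have hp2 : F ∈ mI p.rep ^ 2 := (le_mult hFi.ne_zero p 2).1 hp
  refine ⟨?_, ?_⟩
  · have := Ideal.pow_le_self (two_ne_zero) hp2
    rwa [mI, RingHom.mem_ker] at this
  · have := deriv_mem p.rep (pderiv i) 1 F hp2
    rwa [pow_one, mI, RingHom.mem_ker] at this

theorem main {c : ℝ} (hc0 : 0 ≤ c) (hc : c < 3) :
    ∃ (F : MvPolynomial (Fin 3) ℂ) (d : ℕ), IsIrreducibleSingularCurve F d ∧ h F d < -c := by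
  classical
  obtain ⟨w, w', hw⟩ := Cub.ex
  -- the choice of the exponent
  have hδ : 0 < 1 - c / 3 := by linarith
  obtain ⟨k, hk⟩ := exists_nat_gt (44 / (3 * (1 - c / 3)))
  have hkδ : 44 < (3 * k : ℝ) * (1 - c / 3) := by
    rw [div_lt_iff₀ (by positivity)] at hk
    linarith
  have hk1 : 1 ≤ k := by
    by_contra hcon
    have : k = 0 := by omega
    rw [this] at hkδ
    simp at hkδ
    linarith
  obtain ⟨a, ha⟩ : ∃ a, a = 3 * k := ⟨_, rfl⟩
  have haR : (a : ℝ) = 3 * k := by rw [ha]; push_cast; ring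
  have h3 : 3 ∣ a := ⟨k, ha⟩
  have ha3 : 3 ≤ a := by omega
  rw [← haR] at hkδ
  obtain ⟨d, F, hF, hFi, h0⟩ := exists_form (natDegree_pp w w' a)
  have hd : d ≤ 4 * a + 4 := degree_le (natDegree_pp w w' a) (img_infinite hw h3 ha3) hF hFi h0
  have hfin := sing_finite hF hFi
  have hF0 := hFi.ne_zero
  obtain ⟨t1, t2⟩ := total hw h3 ha3 hF h0 (M := mult F) (fun p m => le_mult hF0 p m)
  have hne : (Sing F).Nonempty := ⟨P1, t1 _ P1_mem⟩
  refine ⟨F, d, ⟨hF, hFi, hfin, hne⟩, ?_⟩
  rw [h, div_lt_iff₀ (by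
    rw [Nat.cast_pos, Set.ncard_pos hfin]
    exact hne)]
  rw [finsum_mem_eq_finite_toFinset_sum _ hfin, Set.ncard_eq_toFinset_card _ hfin]
  -- the sum over the singular points
  have e1 : ∑ q ∈ hfin.toFinset, ((mult F q : ℝ) ^ 2 - c) =
      ∑ q ∈ hfin.toFinset, (mult F q : ℝ) ^ 2 - c * hfin.toFinset.card := by
    rw [Finset.sum_sub_distrib, Finset.sum_const, nsmul_eq_mul]
    ring
  have e2 : ∑ q ∈ ZZ w w' a, ((mult F q : ℝ) ^ 2 - c) ≤
      ∑ q ∈ hfin.toFinset, ((mult F q : ℝ) ^ 2 - c) := by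
    apply Finset.sum_le_sum_of_subset_of_nonneg
    · intro q hq
      rw [Set.Finite.mem_toFinset]
      exact t1 q hq
    · intro q hq _
      rw [Set.Finite.mem_toFinset] at hq
      have : (2 : ℝ) ≤ mult F q := by exact_mod_cast (hq : 2 ≤ mult F q)
      nlinarith
  have e3 := t2 c hc.le
  have e4 : (d : ℝ) ≤ 4 * a + 4 := by exact_mod_cast hd
  have e5 : (d : ℝ) ^ 2 ≤ (4 * a + 4) ^ 2 := by
    have : (0 : ℝ) ≤ d := Nat.cast_nonneg _
    nlinarith
  have ha1 : (3 : ℝ) ≤ a := by exact_mod_cast ha3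
  have e6 : (4 * (a : ℝ) + 4) ^ 2 < 2 * ((2 * (a : ℝ)) ^ 2 - c) + 6 * ((a : ℝ) ^ 2 - c) +
      ((a : ℝ) ^ 2 + a) * ((9 - c) / 3) := by
    have : 44 * (a : ℝ) < (a : ℝ) ^ 2 * (1 - c / 3) := by nlinarith
    nlinarith
  linarith

/-- **Theorem.**  For every `ε > 0` there is an irreducible singular complex plane curve `C` with
`h(C) < -3 + ε`; in particular there is an irreducible singular complex plane curve with
`h(C) < -2`. -/
theorem result :
    (∀ ε : ℝ, 0 < ε →
      ∃ (F : MvPolynomial (Fin 3) ℂ) (d : ℕ), IsIrreducibleSingularCurve F d ∧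
        h F d < -3 + ε) ∧
    ∃ (F : MvPolynomial (Fin 3) ℂ) (d : ℕ), IsIrreducibleSingularCurve F d ∧ h F d < -2 := by
  refine ⟨?_, main (c := 2) (by norm_num) (by norm_num)⟩
  intro ε hε
  obtain ⟨F, d, h1, h2⟩ := main (c := max 0 (3 - ε)) (le_max_left _ _)
    (max_lt (by norm_num) (by linarith))
  refine ⟨F, d, h1, lt_of_lt_of_le h2 ?_⟩
  have := le_max_right 0 (3 - ε)
  linarith

end Pool.Agent.Results.MP_81ecef_ag.MinusThree
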